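import Mathlib

/-!
# Ladder systems, the bounding number, small Dowker spaces and Lusin sets
-/

namespace Pool.Agent.Y575.LD

open Cardinal Set Topology

/-- the first uncountable ordinal, as a well-ordered set -/
abbrev W1 : Type := (ℵ₁ : Cardinal.{0}).ord.ToType

/-- `A` is an unbounded (equivalently, uncountable) subset of `ω₁`. -/
def Unb (A : Set W1) : Prop := ∀ g, ∃ a ∈ A, g < a

/-- `f` is a ladder at `l`: a strictly increasing sequence with supremum `l`. -/
def IsLad (f : ℕ → W1) (l : W1) : Prop :=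
  (∀ j, f j < f (j + 1)) ∧ (∀ j, f j < l) ∧ ∀ g, g < l → ∃ j, g < f j

/-- Infinitely many of the points `f j` with `j` in the `m`-th of a fixed partition of `ℕ` into
infinitely many infinite sets are in `A`. -/
def InfHit (f : ℕ → W1) (m : ℕ) (A : Set W1) : Prop :=
  ∀ N, ∃ j, N ≤ j ∧ (Nat.unpair j).1 = m ∧ f j ∈ A

/-- There are sequences `L l` such that for any two unbounded sets `A` and `B` and any `m`, some
`L l` is a ladder at `l` and meets both `A` and `B` infinitely often, with indices in the `m`-th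
piece of the partition. -/
def LadderPr : Prop :=
  ∃ L : W1 → ℕ → W1, ∀ A B : Set W1, ∀ m, Unb A → Unb B →
    ∃ l, IsLad (L l) l ∧ InfHit (L l) m A ∧ InfHit (L l) m B

/-- `𝔟 > ℵ₁`: any `ℵ₁` functions from `ℕ` to `ℕ` have a common upper bound modulo finite sets. -/
def BGt : Prop :=
  ∀ x : W1 → ℕ → ℕ, ∃ g : ℕ → ℕ, ∀ a, ∃ N, ∀ n, N ≤ n → x a n ≤ g n

/-- Every countable open cover has a locally finite open refinement. -/
def CountablyParacompact (X : Type) [TopologicalSpace X] : Prop :=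
  ∀ u : ℕ → Set X, (∀ n, IsOpen (u n)) → (⋃ n, u n) = Set.univ →
    ∃ v : Set (Set X), (∀ s ∈ v, IsOpen s) ∧ ⋃₀ v = Set.univ ∧ (∀ s ∈ v, ∃ n, s ⊆ u n) ∧
      ∀ x, ∃ t ∈ 𝓝 x, {s ∈ v | (s ∩ t).Nonempty}.Finite

/-- A Dowker space: a normal `T₁` space which is not countably paracompact. -/
def IsDowker (X : Type) [TopologicalSpace X] : Prop :=
  T1Space X ∧ NormalSpace X ∧ ¬ CountablyParacompact X

/-- Every point has a countable open neighbourhood. -/
def LocallyCountable (X : Type) [TopologicalSpace X] : Prop :=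
  ∀ x : X, ∃ U : Set X, IsOpen U ∧ x ∈ U ∧ U.Countable

/-- A Lusin set: an uncountable set of reals whose intersection with every meager set is
countable. -/
def IsLusin (L : Set ℝ) : Prop :=
  ¬ L.Countable ∧ ∀ M : Set ℝ, IsMeagre M → (L ∩ M).Countable

/-! ## Statements of the jobs -/

/-- the properties of the topology on `ω₁ × ω` -/
structure Top (L : W1 → ℕ → W1) (τ : TopologicalSpace (W1 × ℕ)) : Prop where
  fc : FirstCountableTopology (W1 × ℕ)
  lc : LocallyCountable (W1 × ℕ)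
  t1 : T1Space (W1 × ℕ)
  reg : RegularSpace (W1 × ℕ)
  clop : ∀ g : W1, IsClopen {x : W1 × ℕ | x.1 ≤ g}
  lev : ∀ n : ℕ, IsClosed {x : W1 × ℕ | n ≤ x.2}
  lim : ∀ l m, IsLad (L l) l → ∀ H : Set (W1 × ℕ), IsClosed H →
    (∀ N, ∃ j, N ≤ j ∧ (Nat.unpair j).1 = m ∧ (L l j, m) ∈ H) → (l, m + 1) ∈ H

/-- job TOP -/
def S_TOP : Prop := ∀ L : W1 → ℕ → W1, ∃ τ : TopologicalSpace (W1 × ℕ), Top L τ

/-- job NOR -/
def S_NOR : Prop := ∀ (L : W1 → ℕ → W1) (τ : TopologicalSpace (W1 × ℕ)), Top L τ →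
  (∀ A B : Set W1, ∀ m, Unb A → Unb B →
    ∃ l, IsLad (L l) l ∧ InfHit (L l) m A ∧ InfHit (L l) m B) →
  IsDowker (W1 × ℕ) ∧ #(W1 × ℕ) = ℵ₁

/-- job LUS -/
def S_LUS : Prop := BGt → ¬ ∃ L : Set ℝ, IsLusin L

end Pool.Agent.Y575.LD
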