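import Mathlib
import Pool.Agent.Y575.MA.Defs
import Pool.Agent.Y575.LD.Defs

/-!
# The ladder principle and `𝔟 > ℵ₁` in the forcing language

The sentences of the forcing language are the ones of `Pool.Agent.Helper669.Forcing`: a sentence is
the set of the conditions forcing it.
-/

namespace Pool.Agent.Y575.LD

open Cardinal Pool.Agent.Helper669.Forcing Pool.Agent.Y575.MA

variable {P : Type} [Preorder P]

/-- The subset of `ω₁` named by `A` is unbounded. -/
def FUnb (A : W1 → Set P) : Set P :=
  fall fun g : W1 => fex fun a : W1 => fand (fground (g < a)) (meets (A a))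

/-- The named function `f` is a ladder at `l`: a strictly increasing function from `ℕ` to `ω₁` with
values below `l` and cofinal in `l`. -/
def FIsLad (f : ℕ → W1 → Set P) (l : W1) : Set P :=
  fand (IsFun f)
    (fand
      (fall fun j : ℕ => fall fun a : W1 => fall fun b : W1 =>
        fimp (fand (meets (f j a)) (meets (f (j + 1) b))) (fground (a < b)))
      (fand
        (fall fun j : ℕ => fall fun a : W1 => fimp (meets (f j a)) (fground (a < l)))
        (fall fun g : W1 => fall fun _ : g < l =>
          fex fun j : ℕ => fex fun a : W1 => fand (fground (g < a)) (meets (f j a)))))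

/-- The named function `f` has infinitely many values `f j`, with `j` in the `m`-th piece of the
partition of `ℕ`, in the set named by `A`. -/
def FInfHit (f : ℕ → W1 → Set P) (m : ℕ) (A : W1 → Set P) : Set P :=
  fall fun N : ℕ => fex fun j : ℕ => fex fun a : W1 =>
    fand (fground (N ≤ j ∧ (Nat.unpair j).1 = m)) (fand (meets (f j a)) (meets (A a)))

/-- The ladder principle `LadderPr` holds in the extension. -/
def FLadder (P : Type) [Preorder P] : Set P :=
  fex fun L : W1 → ℕ → W1 → Set P =>
    fand (fall fun l => IsFun (L l))
      (fall fun A : W1 → Set P => fall fun B : W1 → Set P => fall fun m : ℕ =>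
        fimp (fand (FUnb A) (FUnb B))
          (fex fun l : W1 => fand (FIsLad (L l) l)
            (fand (FInfHit (L l) m A) (FInfHit (L l) m B))))

/-- `𝔟 > ℵ₁` holds in the extension: any functions from `ℕ` to `ℕ` indexed by `ω₁` have a common
upper bound modulo finite sets. -/
def FBGt (P : Type) [Preorder P] : Set P :=
  fall fun x : W1 → ℕ → ℕ → Set P => fimp (fall fun a => IsFun (x a))
    (fex fun g : ℕ → ℕ → Set P => fand (IsFun g) (fall fun a => LeStar (x a) g))

theorem down_FUnb (A : W1 → Set P) : Down (FUnb A) := down_fall fun _ => down_fex _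

theorem down_FIsLad (f : ℕ → W1 → Set P) (l : W1) : Down (FIsLad f l) :=
  down_fand (down_IsFun _) (down_fand (down_fall fun _ => down_fall fun _ => down_fall fun _ =>
    down_fimp _ _) (down_fand (down_fall fun _ => down_fall fun _ => down_fimp _ _)
      (down_fall fun _ => down_fall fun _ => down_fex _)))

theorem down_FInfHit (f : ℕ → W1 → Set P) (m : ℕ) (A : W1 → Set P) : Down (FInfHit f m A) :=
  down_fall fun _ => down_fex _

end Pool.Agent.Y575.LD
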