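import Mathlib
import Pool.Agent.Y575.MA.Main
import Pool.Agent.Y575.LD.FDefs

/-!
# Combinatorics on `ω₁`: closure points, pressing down, and ladders coded by reals
-/

namespace Pool.Agent.Y575.LD

open Cardinal

theorem exists_bound1 (S : Set W1) (hS : S.Countable) : ∃ b, ∀ s ∈ S, s < b :=
  Pool.Agent.Y575.MA.exists_bound isRegular_aleph_one S
    ((le_aleph0_iff_set_countable.2 hS).trans_lt aleph0_lt_aleph_one)

theorem countable_Iio (a : W1) : (Set.Iio a).Countable := by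
  have h : #(Set.Iio a) < ℵ₁ := mk_Iio_toType_ord_lt a
  rw [← le_aleph0_iff_set_countable]
  exact Order.lt_succ_iff.1 (by rwa [succ_aleph0])

theorem countable_Iic (a : W1) : (Set.Iic a).Countable := by
  rw [← Set.Iio_insert]
  exact (countable_Iio a).insert a

theorem exists_closure (h : W1 → W1) (g : W1) : ∃ m, g < m ∧ ∀ y, y < m → h y < m := by
  have h1 : ∀ c : W1, ∃ d, c < d ∧ ∀ y, y ≤ c → h y < d := by
    intro c
    obtain ⟨d, hd⟩ := exists_bound1 (insert c (h '' Set.Iic c))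
      (((countable_Iic c).image h).insert c)
    exact ⟨d, hd c (Set.mem_insert _ _), fun y hy => hd _ (Set.mem_insert_of_mem _ ⟨y, hy, rfl⟩)⟩
  choose f hf1 hf2 using h1
  let c : ℕ → W1 := fun n => Nat.rec g (fun _ x => f x) n
  have hc : ∀ n, c (n + 1) = f (c n) := fun n => rfl
  let S : Set W1 := {m | ∀ n, c n < m}
  have hS : S.Nonempty := by
    obtain ⟨b, hb⟩ := exists_bound1 (Set.range c) (Set.countable_range c)
    exact ⟨b, fun n => hb _ ⟨n, rfl⟩⟩
  let m : W1 := WellFounded.min (wellFounded_lt (α := W1)) S hS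
  have hm : m ∈ S := WellFounded.min_mem _ S hS
  refine ⟨m, hm 0, fun y hy => ?_⟩
  have h2 : y ∉ S := fun hyS => WellFounded.not_lt_min (wellFounded_lt (α := W1)) S hyS hy
  obtain ⟨n, hn⟩ : ∃ n, ¬ c n < y := by
    by_contra hcon
    push Not at hcon
    exact h2 hcon
  exact (hf2 (c n) y (not_lt.1 hn)).trans (hm (n + 1))

/-- limit points -/
def Lim (l : W1) : Prop := (∃ a, a < l) ∧ ∀ a, a < l → ∃ b, a < b ∧ b < l

/-- pressing down for a regressive function with two colours -/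
theorem press (b : W1 → W1) (hb : ∀ l, Lim l → b l < l) (φ : W1 → Prop) :
    ∃ g : W1, ∃ ψ : Prop, Unb {l | Lim l ∧ b l ≤ g ∧ (φ l ↔ ψ)} := by
  by_contra hcon
  push Not at hcon
  have h1 : ∀ g, ∃ d, ∀ l, Lim l → b l ≤ g → l ≤ d := by
    intro g
    have h2 : ∀ ψ : Prop, ∃ d, ∀ l, Lim l → b l ≤ g → (φ l ↔ ψ) → l ≤ d := by
      intro ψ
      have := hcon g ψ
      unfold Unb at this
      push Not at this
      obtain ⟨d, hd⟩ := this
      exact ⟨d, fun l h3 h4 h5 => hd l ⟨h3, h4, h5⟩⟩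
    obtain ⟨d, hd⟩ := h2 True
    obtain ⟨d', hd'⟩ := h2 False
    refine ⟨max d d', fun l h3 h4 => ?_⟩
    by_cases h5 : φ l
    · exact (hd l h3 h4 (iff_of_true h5 trivial)).trans (le_max_left _ _)
    · exact (hd' l h3 h4 (iff_of_false h5 id)).trans (le_max_right _ _)
  choose d hd using h1
  have h2 : ∀ y : W1, ∃ z, y < z := fun y => by
    obtain ⟨z, hz⟩ := exists_bound1 {y} (Set.countable_singleton y)
    exact ⟨z, hz y rfl⟩
  choose s hs using h2
  obtain ⟨g0⟩ : Nonempty W1 := by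
    obtain ⟨z, _⟩ := exists_bound1 ∅ Set.countable_empty
    exact ⟨z⟩
  obtain ⟨m, hm1, hm2⟩ := exists_closure (fun y => max (d y) (s y)) g0
  have hlim : Lim m := ⟨⟨g0, hm1⟩, fun a ha =>
    ⟨s a, hs a, (le_max_right _ _).trans_lt (hm2 a ha)⟩⟩
  have h3 := hb m hlim
  have h4 := hd (b m) m hlim le_rfl
  exact absurd h4 (not_le.2 ((le_max_left _ _).trans_lt (hm2 _ h3)))

/-- thinning out an unbounded set -/
theorem thin (Y : Set W1) (hY : Unb Y) (g : W1) (β : W1 → W1) :
    ∃ Z ⊆ Y, ¬ Z.Countable ∧ (∀ z ∈ Z, g < z) ∧ ∀ z ∈ Z, ∀ z' ∈ Z, z < z' → β z < z' := by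
  let C : Set W1 := {m | ∀ y, y < m → β y < m}
  let Z : Set W1 := {z | z ∈ Y ∧ g < z ∧ ∃ m ∈ C, m ≤ z ∧ ∀ x ∈ Y, g < x → m ≤ x → z ≤ x}
  refine ⟨Z, fun z hz => hz.1, fun hcount => ?_, fun z hz => hz.2.1, ?_⟩
  · obtain ⟨d, hd⟩ := exists_bound1 Z hcount
    obtain ⟨m, hm1, hm2⟩ := exists_closure β d
    let T : Set W1 := {x | x ∈ Y ∧ g < x ∧ m ≤ x}
    have hT : T.Nonempty := by
      obtain ⟨x, hx, hx'⟩ := hY (max g m)
      exact ⟨x, hx, (le_max_left _ _).trans_lt hx', ((le_max_right _ _).trans_lt hx').le⟩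
    let z : W1 := WellFounded.min (wellFounded_lt (α := W1)) T hT
    have hz : z ∈ T := WellFounded.min_mem _ T hT
    have hzZ : z ∈ Z := ⟨hz.1, hz.2.1, m, hm2, hz.2.2, fun x h1 h2 h3 => not_lt.1 fun h =>
      WellFounded.not_lt_min (wellFounded_lt (α := W1)) T (x := x) ⟨h1, h2, h3⟩ h⟩
    exact absurd (hd z hzZ) (not_lt.2 (hm1.le.trans hz.2.2))
  · rintro z ⟨hz1, hz2, m, hm, hmz, hmin⟩ z' ⟨hz1', hz2', m', hm', hmz', hmin'⟩ hlt
    have h1 : z < m' := by
      by_contra h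
      exact absurd (hmin' z hz1 hz2 (not_lt.1 h)) (not_le.2 hlt)
    exact (hm' z h1).trans_le hmz'

/-! ### Ladders coded by functions from `ℕ` to `ℕ` -/

open Classical in
/-- an enumeration of the predecessors of `l` -/
noncomputable def en (l : W1) : ℕ → W1 :=
  if h : ∃ e : ℕ → W1, Set.range e = Set.Iio l then h.choose else fun _ => l

theorem range_en {l : W1} (hl : Lim l) : Set.range (en l) = Set.Iio l := by
  have h : ∃ e : ℕ → W1, Set.range e = Set.Iio l := by
    obtain ⟨a, ha⟩ := hl.1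
    obtain ⟨e, he⟩ := (countable_Iio l).exists_eq_range ⟨a, ha⟩
    exact ⟨e, he.symm⟩
  rw [en, dif_pos h]
  exact h.choose_spec

theorem en_lt {l : W1} (hl : Lim l) (n : ℕ) : en l n < l := by
  have : en l n ∈ Set.Iio l := by
    rw [← range_en hl]
    exact ⟨n, rfl⟩
  exact this

theorem exists_en {l : W1} (hl : Lim l) {a : W1} (ha : a < l) : ∃ n, en l n = a := by
  have : a ∈ Set.range (en l) := by
    rw [range_en hl]
    exact ha
  exact this

open Classical in
/-- a point between `a` and `l` -/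
noncomputable def nx (l a : W1) : W1 := if h : ∃ b, a < b ∧ b < l then h.choose else a

theorem lt_nx {l : W1} (hl : Lim l) {a : W1} (ha : a < l) : a < nx l a ∧ nx l a < l := by
  have h := hl.2 a ha
  rw [nx, dif_pos h]
  exact h.choose_spec

/-- the ladder at `l` coded by `g` -/
noncomputable def Lv (l : W1) (g : ℕ → ℕ) : ℕ → W1
  | 0 => max (en l 0) (en l (g 0))
  | j + 1 => max (max (en l (j + 1)) (en l (g (j + 1)))) (nx l (Lv l g j))

theorem Lv_lt {l : W1} (hl : Lim l) (g : ℕ → ℕ) (j : ℕ) : Lv l g j < l := by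
  induction j with
  | zero => exact max_lt (en_lt hl _) (en_lt hl _)
  | succ j ih => exact max_lt (max_lt (en_lt hl _) (en_lt hl _)) (lt_nx hl ih).2

theorem Lv_lt_succ {l : W1} (hl : Lim l) (g : ℕ → ℕ) (j : ℕ) : Lv l g j < Lv l g (j + 1) :=
  (lt_nx hl (Lv_lt hl g j)).1.trans_le (le_max_right _ _)

theorem en_le_Lv (l : W1) (g : ℕ → ℕ) (j : ℕ) : en l j ≤ Lv l g j := by
  cases j with
  | zero => exact le_max_left _ _
  | succ j => exact (le_max_left _ _).trans (le_max_left _ _)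

theorem Lv_congr {l : W1} {g g' : ℕ → ℕ} (j : ℕ) (h : ∀ i, i ≤ j → g i = g' i) :
    Lv l g j = Lv l g' j := by
  induction j with
  | zero => simp only [Lv]; rw [h 0 le_rfl]
  | succ j ih =>
    simp only [Lv]
    rw [h (j + 1) le_rfl, ih fun i hi => h i (hi.trans (Nat.le_succ j))]

/-- changing the last value used -/
theorem Lv_hit {l : W1} {g g' : ℕ → ℕ} {j k : ℕ} {β : W1} (h : ∀ i, i < j → g i = g' i)
    (hk : g' j = k) (hβ : en l k = β) (hle : Lv l g j ≤ β) : Lv l g' j = β := by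
  cases j with
  | zero =>
    simp only [Lv] at hle ⊢
    rw [hk, hβ]
    exact max_eq_right ((le_max_left _ _).trans hle)
  | succ j =>
    have h1 : Lv l g j = Lv l g' j := Lv_congr j fun i hi => h i (Nat.lt_succ_of_le hi)
    simp only [Lv] at hle ⊢
    rw [hk, hβ, ← h1]
    rw [max_eq_right ((le_max_left _ _).trans ((le_max_left _ _).trans hle))]
    exact max_eq_left ((le_max_right _ _).trans hle)

end Pool.Agent.Y575.LD
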