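import Mathlib
import Pool.Agent.Y575.MA.Main
import Pool.Agent.Y575.LD.FDefs
import Pool.Agent.Y575.LD.Comb

/-!
# The generic ladder system
-/

namespace Pool.Agent.Y575.LD

open Cardinal Pool.Agent.Helper669.Iter Pool.Agent.Helper669.Forcing Pool.Agent.Y575.MA

variable {J : Type} [LinearOrder J] [WellFoundedLT J] {Q : J → J → Prop}

/-- the first coordinates of the values decided at the coordinate `ξ` -/
def cs (ξ : J) (p : Cond Q) : List ℕ := (p.1.st (ξ : WithTop J)).map fun a => (Nat.unpair a).1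

/-- the function used to code the ladder, padded with zeros -/
def cg (ξ : J) (p : Cond Q) (i : ℕ) : ℕ := (cs ξ p).getD i 0

theorem cs_length (ξ : J) (p : Cond Q) : (cs ξ p).length = (p.1.st (ξ : WithTop J)).length := by
  simp [cs]

theorem cs_mono {p q : Cond Q} (h : p ≤ q) (ξ : J) : cs ξ q <+: cs ξ p :=
  List.IsPrefix.map _ (h (ξ : WithTop J)).1

theorem cg_mono {p q : Cond Q} (h : p ≤ q) (ξ : J) {i : ℕ} (hi : i < (cs ξ q).length) :
    cg ξ p i = cg ξ q i := (getD_prefix (cs_mono h ξ) hi).symm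

open Classical in
/-- the name of the generic ladder at `l` -/
noncomputable def LL (Q : J → J → Prop) (ι : W1 → J) (l : W1) (j : ℕ) (a : W1) : Set (Cond Q) :=
  if Lim l then {p | j < (cs (ι l) p).length ∧ Lv l (cg (ι l) p) j = a} else {_p | a = l}

theorem LL_lim {ι : W1 → J} {l : W1} (hl : Lim l) (j : ℕ) (a : W1) :
    LL Q ι l j a = {p | j < (cs (ι l) p).length ∧ Lv l (cg (ι l) p) j = a} := if_pos hl

theorem LL_not {ι : W1 → J} {l : W1} (hl : ¬ Lim l) (j : ℕ) (a : W1) :
    LL Q ι l j a = {_p | a = l} := if_neg hl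

theorem down_LL (ι : W1 → J) (l : W1) (j : ℕ) (a : W1) : Down (LL Q ι l j a) := by
  by_cases hl : Lim l
  · rw [LL_lim hl]
    rintro p ⟨h1, h2⟩ q hq
    refine ⟨h1.trans_le (cs_mono hq _).length_le, ?_⟩
    rw [← h2]
    exact Lv_congr j fun i hi => cg_mono hq _ (hi.trans_lt h1)
  · rw [LL_not hl]
    exact fun _ hp _ _ => hp

theorem push_cs (ι : W1 → J) (l : W1) (p : Cond Q) (j : ℕ) : ∃ r ≤ p, j < (cs (ι l) r).length := by
  obtain ⟨r, hr, hlen, _⟩ := push_long p (ι l) j
  exact ⟨r, hr, by rw [cs_length]; exact hlen⟩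

/-- two values decided by one condition -/
theorem both {N M : Set (Cond Q)} (hN : Down N) (hM : Down M) {p : Cond Q} (h1 : p ∈ meets N)
    (h2 : p ∈ meets M) : ∃ q ≤ p, q ∈ N ∧ q ∈ M := by
  obtain ⟨r, hr, h3⟩ := exists_of_meets hN h1
  obtain ⟨s, hs, h4⟩ := exists_of_meets hM (down_meets _ _ h2 r hr)
  exact ⟨s, hs.trans hr, hN r h3 s hs, h4⟩

theorem isFun_LL (ι : W1 → J) (l : W1) (p : Cond Q) : p ∈ IsFun (LL Q ι l) := by
  refine ⟨fun j => mem_fex.2 fun q _ => ?_, fun j a b => mem_fimp.2 fun q _ h => ?_⟩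
  · by_cases hl : Lim l
    · obtain ⟨r, hr, hlen⟩ := push_cs ι l q j
      refine ⟨r, hr, Lv l (cg (ι l) r) j, meets_of_mem ?_⟩
      rw [LL_lim hl]
      exact ⟨hlen, rfl⟩
    · refine ⟨q, le_rfl, l, meets_of_mem ?_⟩
      rw [LL_not hl]
      exact rfl
  · obtain ⟨r, hr, h1, h2⟩ := both (down_LL ι l j a) (down_LL ι l j b) h.1 h.2
    refine ⟨q, le_rfl, ?_⟩
    show a = b
    by_cases hl : Lim l
    · rw [LL_lim hl] at h1 h2
      exact h1.2.symm.trans h2.2
    · rw [LL_not hl] at h1 h2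
      exact Eq.trans (show a = l from h1) (show b = l from h2).symm

theorem isLad_LL (ι : W1 → J) {l : W1} (hl : Lim l) (p : Cond Q) :
    p ∈ FIsLad (LL Q ι l) l := by
  refine ⟨isFun_LL ι l p, fun j a b => mem_fimp.2 fun q _ h => ?_,
    fun j a => mem_fimp.2 fun q _ h => ?_, fun g hg => mem_fex.2 fun q _ => ?_⟩
  · obtain ⟨r, hr, h1, h2⟩ := both (down_LL ι l j a) (down_LL ι l (j + 1) b) h.1 h.2
    rw [LL_lim hl] at h1 h2
    refine ⟨q, le_rfl, ?_⟩
    show a < b
    rw [← h1.2, ← h2.2]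
    exact Lv_lt_succ hl _ j
  · obtain ⟨r, hr, h1⟩ := exists_of_meets (down_LL ι l j a) h
    rw [LL_lim hl] at h1
    refine ⟨q, le_rfl, ?_⟩
    show a < l
    rw [← h1.2]
    exact Lv_lt hl _ j
  · obtain ⟨j, hj⟩ := exists_en hl hg
    obtain ⟨r, hr, hlen⟩ := push_cs ι l q (j + 1)
    refine ⟨r, hr, j + 1, mem_fex_of_mem (Lv l (cg (ι l) r) (j + 1))
      (down_fand (down_fground _) (down_meets _)) ⟨?_, meets_of_mem ?_⟩⟩
    · show g < _
      refine lt_of_le_of_lt ?_ (Lv_lt_succ hl _ j)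
      rw [← hj]
      exact en_le_Lv l _ j
    · rw [LL_lim hl]
      exact ⟨hlen, rfl⟩

/-- two conditions with matching stems have a common extension with a prescribed stem -/
theorem compat_keep {r r' : Cond Q} (ξ : WithTop J)
    (h : ∀ η ∈ supp r.1, (η ∈ supp r'.1 ∨ η = ξ) → r.1.st η = r'.1.st η) :
    ∃ q : Cond Q, q ≤ r ∧ q ≤ r' ∧ q.1.st ξ = r'.1.st ξ := by
  classical
  let z : Rep (WithTop J) :=
    { st := fun η => if η ∈ supp r.1 then r.1.st η else r'.1.st η
      pr := fun η => r.1.pr η ∪ r'.1.pr η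
      fin := by
        refine (r.1.fin.union r'.1.fin).subset fun η hη => ?_
        by_contra h'
        rw [Set.mem_union, not_or] at h'
        obtain ⟨h1, h2⟩ := notMem_supp (r := r.1) h'.1
        obtain ⟨h3, h4⟩ := notMem_supp (r := r'.1) h'.2
        simp [h1, h2, h3, h4] at hη }
  have hz : z ∈ Vd (HR (QT Q)) ⊤ := by
    refine ⟨fun η R hR => ?_, fun η hη => ?_⟩
    · rcases Finset.mem_union.1 hR with h | h
      · exact r.2.1 η R h
      · exact r'.2.1 η R h
    · obtain ⟨h1, h2⟩ := r.2.2 η hη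
      obtain ⟨h3, h4⟩ := r'.2.2 η hη
      simp [z, h1, h2, h3, h4]
  refine ⟨⟨z, hz⟩, fun η => ?_, fun η => ?_, ?_⟩
  · show r.1.st η <+: z.st η ∧ r.1.pr η ⊆ z.pr η ∧ _
    by_cases h1 : η ∈ supp r.1
    · have : z.st η = r.1.st η := if_pos h1
      rw [this]
      exact ⟨List.prefix_refl _, Finset.subset_union_left,
        fun _ _ _ h h' => absurd h' (not_lt.2 h)⟩
    · obtain ⟨h2, h3⟩ := notMem_supp h1
      rw [h2, h3]
      exact ⟨List.nil_prefix, Finset.empty_subset _, fun R hR => absurd hR (Finset.notMem_empty R)⟩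
  · show r'.1.st η <+: z.st η ∧ r'.1.pr η ⊆ z.pr η ∧ _
    by_cases h1 : η ∈ supp r'.1
    · have : z.st η = r'.1.st η := by
        by_cases h2 : η ∈ supp r.1
        · have : z.st η = r.1.st η := if_pos h2
          rw [this, h η h2 (Or.inl h1)]
        · exact if_neg h2
      rw [this]
      exact ⟨List.prefix_refl _, Finset.subset_union_right,
        fun _ _ _ h h' => absurd h' (not_lt.2 h)⟩
    · obtain ⟨h2, h3⟩ := notMem_supp h1
      rw [h2, h3]
      exact ⟨List.nil_prefix, Finset.empty_subset _, fun R hR => absurd hR (Finset.notMem_empty R)⟩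
  · show z.st ξ = r'.1.st ξ
    by_cases h2 : ξ ∈ supp r.1
    · have : z.st ξ = r.1.st ξ := if_pos h2
      rw [this, h ξ h2 (Or.inr rfl)]
    · exact if_neg h2

/-- the main step: a contradiction from refuting conditions at all limit points -/
theorem no_refute (ι : W1 → J) (X : W1 → W1 → Set (Cond Q))
    (m : ℕ) (φ : W1 → Prop) (hφ : ∀ l l', (φ l ↔ φ l') → X l = X l')
    (q : W1 → Cond Q) (N : W1 → ℕ)
    (hq : ∀ l, Lim l → ∀ r ≤ q l, ∀ j, N l ≤ j → (Nat.unpair j).1 = m → ∀ a,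
      ¬ (r ∈ meets (LL Q ι l j a) ∧ r ∈ meets (X l a)))
    (hX : ∀ l, Lim l → ∃ r ≤ q l, ∃ β, l < β ∧ r ∈ meets (X l β)) : False := by
  classical
  have : Nonempty W1 := by
    obtain ⟨z, _⟩ := exists_bound1 ∅ Set.countable_empty
    exact ⟨z⟩
  choose! r hrq β hβ hrβ using hX
  let n : W1 → ℕ := fun l => (cs (ι l) (r l)).length
  let jj : W1 → ℕ := fun l => Nat.pair m (max (N l) (n l))
  have hjN : ∀ l, N l ≤ jj l := fun l => (le_max_left _ _).trans (Nat.right_le_pair _ _)
  have hjn : ∀ l, n l ≤ jj l := fun l => (le_max_right _ _).trans (Nat.right_le_pair _ _)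
  have hjm : ∀ l, (Nat.unpair (jj l)).1 = m := fun l => by simp [jj]
  let b : W1 → W1 := fun l => Lv l (cg (ι l) (r l)) (jj l)
  obtain ⟨g, ψ, hY⟩ := press b (fun l hl => Lv_lt hl _ _) φ
  obtain ⟨Z, hZY, hZc, hZg, hZ⟩ := thin _ hY g β
  have hZc' : ¬ Countable Z := hZc
  obtain ⟨y, y', hne, hag⟩ := exists_agree (I := WithTop J) (Y := Z)
    (fun y => supp (r y.1).1 ∪ {((ι y.1 : J) : WithTop J)})
    (fun y => (r y.1).1.fin.union (Set.finite_singleton _))
    (fun y η => Encodable.encode ((r y.1).1.st η)) hZc'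
  -- order the two points
  obtain ⟨y, y', hy, hy', hlt, hag⟩ : ∃ y y' : W1, y ∈ Z ∧ y' ∈ Z ∧ y < y' ∧
      ∀ η ∈ supp (r y).1 ∪ {((ι y : J) : WithTop J)},
        η ∈ supp (r y').1 ∪ {((ι y' : J) : WithTop J)} → (r y).1.st η = (r y').1.st η := by
    rcases lt_trichotomy y.1 y'.1 with h | h | h
    · exact ⟨y.1, y'.1, y.2, y'.2, h, fun η h1 h2 => Encodable.encode_injective (hag η h1 h2)⟩
    · exact absurd (Subtype.ext h) hne
    · exact ⟨y'.1, y.1, y'.2, y.2, h, fun η h1 h2 =>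
        (Encodable.encode_injective (hag η h2 h1)).symm⟩
  obtain ⟨hly, hby, hψ⟩ := hZY hy
  obtain ⟨hly', hby', hψ'⟩ := hZY hy'
  obtain ⟨z, hz1, hz2, hz3⟩ := compat_keep (r := r y) (r' := r y') ((ι y' : J) : WithTop J)
    (fun η h1 h2 => hag η (Or.inl h1) (by
      rcases h2 with h2 | h2
      · exact Or.inl h2
      · exact Or.inr h2))
  have hβy' : β y < y' := hZ y hy y' hy' hlt
  obtain ⟨k, hk⟩ := exists_en hly' hβy'
  obtain ⟨r', hr', hst⟩ := push_list (ι y') (List.replicate (jj y' - n y') 0 ++ [k]) z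
  have hcz : cs (ι y') z = cs (ι y') (r y') := by
    unfold cs
    rw [hz3]
  have hcr : cs (ι y') r' = cs (ι y') (r y') ++ (List.replicate (jj y' - n y') 0 ++ [k]) := by
    rw [← hcz]
    exact hst
  have hlen : (cs (ι y') r').length = jj y' + 1 := by
    rw [hcr]
    simp only [List.length_append, List.length_replicate, List.length_singleton]
    have := hjn y'
    simp only [n] at this ⊢
    omega
  have hg1 : ∀ i, i < jj y' → cg (ι y') (r y') i = cg (ι y') r' i := by
    intro i hi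
    unfold cg
    rw [hcr]
    by_cases h1 : i < (cs (ι y') (r y')).length
    · rw [List.getD_append _ _ _ _ h1]
    · rw [List.getD_append_right _ _ _ _ (not_lt.1 h1), List.getD_eq_default _ _ (not_lt.1 h1)]
      have h2 : i - (cs (ι y') (r y')).length <
          (List.replicate (jj y' - n y') (0 : ℕ)).length := by
        rw [List.length_replicate]
        simp only [n]
        omega
      rw [List.getD_append _ _ _ _ h2]
      rw [List.getD_eq_getElem _ _ h2]
      simp
  have hg2 : cg (ι y') r' (jj y') = k := by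
    unfold cg
    rw [hcr, List.getD_append_right _ _ _ _ (hjn y')]
    rw [List.getD_append_right _ _ _ _ (by rw [List.length_replicate])]
    rw [List.length_replicate]
    simp [n]
  have hval : Lv y' (cg (ι y') r') (jj y') = β y := by
    refine Lv_hit hg1 hg2 hk ?_
    exact hby'.trans ((hZg y hy).trans (hβ y hly)).le
  have hmem : r' ∈ LL Q ι y' (jj y') (β y) := by
    rw [LL_lim hly']
    exact ⟨by rw [hlen]; exact Nat.lt_succ_self _, hval⟩
  have hXX : X y = X y' := hφ y y' (hψ.trans hψ'.symm)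
  refine hq y' hly' r' (hr'.trans (hz2.trans (hrq y' hly'))) (jj y') (hjN y') (hjm y') (β y)
    ⟨meets_of_mem hmem, ?_⟩
  rw [← hXX]
  exact down_meets _ _ (hrβ y hly) r' (hr'.trans hz1)

theorem exists_refute {A : W1 → Set (Cond Q)} {ι : W1 → J} {l : W1} {m : ℕ} {p : Cond Q}
    (h : p ∉ FInfHit (LL Q ι l) m A) : ∃ q ≤ p, ∃ N : ℕ, ∀ r ≤ q, ∀ j, N ≤ j →
      (Nat.unpair j).1 = m → ∀ a, ¬ (r ∈ meets (LL Q ι l j a) ∧ r ∈ meets (A a)) := by
  unfold FInfHit at h
  rw [mem_fall] at h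
  push Not at h
  obtain ⟨N, hN⟩ := h
  rw [mem_fex] at hN
  push Not at hN
  obtain ⟨q, hq, h⟩ := hN
  refine ⟨q, hq, N, fun r hr j hj hm a ha => h r hr j ?_⟩
  exact mem_fex_of_mem a (down_fand (down_fground _) (down_fand (down_meets _) (down_meets _)))
    ⟨⟨hj, hm⟩, ha.1, ha.2⟩

theorem ladder (ι : W1 → J) (p : Cond Q) : p ∈ FLadder (Cond Q) := by
  classical
  refine mem_fex_of_mem (LL Q ι) (down_fand (down_fall fun _ => down_IsFun _)
    (down_fall fun _ => down_fall fun _ => down_fall fun _ => down_fimp _ _)) ?_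
  refine ⟨fun l => isFun_LL ι l p, fun A B m => mem_fimp.2 fun q _ hAB => ?_⟩
  by_contra hcon
  push Not at hcon
  have hno : ∀ l, Lim l → ¬ (q ∈ FInfHit (LL Q ι l) m A ∧ q ∈ FInfHit (LL Q ι l) m B) := by
    intro l hl h
    exact hcon q le_rfl (mem_fex_of_mem l
      (down_fand (down_FIsLad _ _) (down_fand (down_FInfHit _ _ _) (down_FInfHit _ _ _)))
      ⟨isLad_LL ι hl q, h.1, h.2⟩)
  let φ : W1 → Prop := fun l => q ∉ FInfHit (LL Q ι l) m A
  let X : W1 → W1 → Set (Cond Q) := fun l => if φ l then A else B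
  have hX : ∀ l, Lim l → q ∉ FInfHit (LL Q ι l) m (X l) := by
    intro l hl
    by_cases h : φ l
    · have : X l = A := if_pos h
      rw [this]
      exact h
    · have : X l = B := if_neg h
      rw [this]
      intro h'
      exact hno l hl ⟨not_not.1 h, h'⟩
  choose! q' hq' N hN using fun l (hl : Lim l) => exists_refute (hX l hl)
  refine no_refute ι X m φ (fun l l' h => by simp only [X, h]) q' N hN fun l hl => ?_
  have hXunb : q ∈ FUnb (X l) := by
    by_cases h : φ l
    · have : X l = A := if_pos h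
      rw [this]
      exact hAB.1
    · have : X l = B := if_neg h
      rw [this]
      exact hAB.2
  obtain ⟨r, hr, a, ha⟩ := mem_fex.1 (hXunb l) (q' l) (hq' l hl)
  exact ⟨r, hr, a, ha.1, ha.2⟩

end Pool.Agent.Y575.LD
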