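import Mathlib
import Pool.Agent.Y575.MA.Main
import Pool.Agent.Y575.LD.FDefs
import Pool.Agent.Y575.LD.Force

/-!
# The Hechler model: `𝔟 > ℵ₁` and a ladder system
-/

namespace Pool.Agent.Y575.LD

open Cardinal Pool.Agent.Helper669.Iter Pool.Agent.Helper669.Forcing Pool.Agent.Y575.MA

section

variable {J : Type} [LinearOrder J] [WellFoundedLT J] {Q : J → J → Prop}

/-- every function of the extension is dominated by all late enough generic functions -/
theorem dominatedS (hQlt : ∀ x y, Q x y → x < y) (x : ℕ → ℕ → Set (Cond Q)) :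
    ∃ S : Set J, S.Countable ∧ ∀ b : J, (∀ s ∈ S, Q s b) →
      ∀ p ∈ IsFun x, ∃ p' ≤ p, p' ∈ LeStar x (Ee b) := by
  classical
  have hD : ∀ n, ∃ A ⊆ {q : Cond Q | (∃ m, q ∈ meets (x n m)) ∨
      q ∈ fnot (IsFun x)}, A.Countable ∧ ∀ p, ∃ a ∈ A, Compat a p := by
    intro n
    apply exists_antichain
    intro q
    by_cases hq : q ∈ fnot (IsFun x)
    · exact ⟨q, le_rfl, Or.inr hq⟩
    · simp only [fnot, Set.mem_ofPred_eq, not_forall, not_not] at hq
      obtain ⟨q', hq', hfun⟩ := hq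
      obtain ⟨q'', hq'', m, hm⟩ := IsFun.total hfun n
      exact ⟨q'', hq''.trans hq', Or.inl ⟨m, hm⟩⟩
  choose A hAD hAc hApre using hD
  refine ⟨⋃ n, ⋃ a ∈ A n, {j : J | (j : WithTop J) ∈ supp a.1},
    Set.countable_iUnion fun n => (hAc n).biUnion fun a _ => countable_supp a, fun b hb p hp => ?_⟩
  refine dominated_aux hQlt x b A hAD hAc hApre (fun n a ha η hη => ?_) hp
  induction η using WithTop.recTopCoe with
  | top => exact absurd hη (top_notMem_supp a)
  | coe j => exact ⟨j, b, rfl, rfl, hb j (Set.mem_iUnion.2 ⟨n, Set.mem_biUnion ha hη⟩)⟩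

end

/-- the index set -/
abbrev J2 : Type := (Order.succ (ℵ₁ : Cardinal.{0})).ord.ToType

/-- the relation -/
def Q2 (x y : J2) : Prop := x < y

/-- the forcing notion -/
abbrev P2 : Type := Cond Q2

theorem isRegular_aleph_two : (Order.succ (ℵ₁ : Cardinal.{0})).IsRegular :=
  isRegular_succ (aleph0_le_aleph 1)

theorem aleph0_lt_two : ℵ₀ < Order.succ (ℵ₁ : Cardinal.{0}) :=
  aleph0_lt_aleph_one.trans (Order.lt_succ _)

theorem bgt (p : P2) : p ∈ FBGt P2 := by
  intro x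
  refine mem_fimp.2 fun q _ hq => ?_
  choose S hSc hS using fun a => dominatedS (Q := Q2) (fun _ _ h => h) (x a)
  have hU : #(⋃ a, S a : Set J2) < Order.succ ℵ₁ := by
    refine (mk_iUnion_le_sum_mk).trans_lt ?_
    refine ((Cardinal.sum_le_sum _ (fun _ => ℵ₀) fun y =>
      le_aleph0_iff_set_countable.2 (hSc y))).trans_lt ?_
    rw [Cardinal.sum_const', mk_toType, card_ord]
    exact mul_lt_of_lt aleph0_lt_two.le (Order.lt_succ _) aleph0_lt_two
  obtain ⟨b, hb⟩ := exists_bound isRegular_aleph_two (⋃ a, S a) hU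
  refine ⟨q, le_rfl, mem_fex_of_mem (Ee b) (down_fand (down_IsFun _)
    (down_fall fun _ => down_LeStar _ _)) ⟨isFun_Ee b q, fun a => ?_⟩⟩
  refine mem_fex.2 fun r hr => ?_
  obtain ⟨r', hr', h'⟩ := hS a b (fun s hs => hb s (Set.mem_iUnion.2 ⟨a, hs⟩)) r
    (down_IsFun _ _ (hq a) r hr)
  obtain ⟨r'', hr'', N, hN⟩ := mem_fex.1 h' r' le_rfl
  exact ⟨r'', hr''.trans hr', N, hN⟩

theorem ladder2 (p : P2) : p ∈ FLadder P2 := by
  obtain ⟨b, _⟩ := exists_bound isRegular_aleph_two ∅ (by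
    rw [mk_eq_zero]
    exact aleph0_pos.trans aleph0_lt_two)
  exact ladder (Q := Q2) (fun _ => b) p

end Pool.Agent.Y575.LD
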