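import Mathlib
import Pool.Agent.Y575.LD.Defs
import Pool.Agent.Y588.LD.TOP
import Pool.Agent.Y338.LD.NOR
import Pool.Agent.Y420.LD.LUS

/-!
# The ladder principle and `𝔟 > ℵ₁`: a small Dowker space and no Lusin set
-/

namespace Pool.Agent.Y575.LD

open Cardinal

theorem dowker_of_ladder (h : LadderPr) :
    ∃ (X : Type) (τ : TopologicalSpace X), @IsDowker X τ ∧ @FirstCountableTopology X τ ∧
      @LocallyCountable X τ ∧ #X = ℵ₁ := by
  obtain ⟨L, hL⟩ := h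
  obtain ⟨τ, hτ⟩ := Y588.LD.TOP.top L
  obtain ⟨h1, h2⟩ := Y338.LD.nor L τ hτ hL
  exact ⟨W1 × ℕ, τ, h1, hτ.fc, hτ.lc, h2⟩

theorem lusin_of_bgt (h : BGt) : ¬ ∃ L : Set ℝ, IsLusin L := Y420.LD.lus h

end Pool.Agent.Y575.LD
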